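import Mathlib
import Pool.Agent.V11170.LeafOsc

set_option autoImplicit false

namespace Pool.Agent.Results.MP_9e0f03_co.BetweenOneAndPhi

open Pool.Agent.V11170.Classes Pool.Agent.V11170.LeafOsc

/-- **Q1: yes.** There is a sum closed permutation class whose indecomposables have upper growth
rate strictly between `1` and the golden ratio (in fact between `11/10` and `3/2`). -/
theorem result : ∃ C : Set P, IsClass C ∧ SumClosed C ∧ 1 < upperGrowth (ind C) ∧
    upperGrowth (ind C) < ENNReal.ofReal ((1 + √5) / 2) := by
  refine ⟨CC, isClass_CC, sumClosed_CC, ?_, ?_⟩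
  · refine lt_of_lt_of_le ?_ growth_ind_ge
    rw [← ENNReal.ofReal_one]
    exact (ENNReal.ofReal_lt_ofReal_iff (by norm_num)).mpr (by norm_num)
  · refine lt_of_le_of_lt growth_ind_le ?_
    apply (ENNReal.ofReal_lt_ofReal_iff (by positivity)).mpr
    have h : (2 : ℝ) < √5 := by
      apply Real.lt_sqrt_of_sq_lt
      norm_num
    linarith

end Pool.Agent.Results.MP_9e0f03_co.BetweenOneAndPhi
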